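import Pool.Agent.P.MP_d3a22b_lc.FcD

/-!
A metabelian group with `n` generators and `m ≤ n - 2` relators is bi-interpretable with
`(ℕ; +, ·)` exactly when it has finitely many elements with a finite conjugacy class.

The definitions are in `Pool/Agent/P/MP_d3a22b_lc/Defs.lean`.
-/

set_option autoImplicit false

open Pool.Agent.P.MP_d3a22b_lc

namespace Pool.Agent.Results.MP_d3a22b_lc.Criterion

/-- For every choice of `m ≤ n - 2` relators, the metabelian group they present is
bi-interpretable with `ℕ` if and only if its FC-centre is finite. -/
theorem result (n m : ℕ) (hmn : m + 2 ≤ n) (r : Fin m → FreeGroup (Fin n)) :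
    BiInterpretableWithNat (PresentedGroup (Set.range r ∪
      (derivedSeries (FreeGroup (Fin n)) 2 : Set (FreeGroup (Fin n))))) ↔
    {g : PresentedGroup (Set.range r ∪
      (derivedSeries (FreeGroup (Fin n)) 2 : Set (FreeGroup (Fin n)))) |
        (conjugatesOf g).Finite}.Finite :=
  biInterpretable_iff hmn r

end Pool.Agent.Results.MP_d3a22b_lc.Criterion
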