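import Pool.Agent.P.MP_d3a22b_lc.Final

/-!
Random metabelian groups with `n` generators and `m ≤ n - 2` relators are asymptotically almost
surely bi-interpretable with `(ℕ; +, ·)`.

The definitions are in `Pool/Agent/P/MP_d3a22b_lc/Defs.lean`.
-/

set_option autoImplicit false

open Filter Topology Pool.Agent.P.MP_d3a22b_lc

namespace Pool.Agent.Results.MP_d3a22b_lc.RandomMetabelian

/-- The proportion, among the `m`-tuples of freely reduced words of length `ℓ` in `n` generators,
of the tuples whose metabelian group is bi-interpretable with `ℕ` tends to `1`. -/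
theorem result (n m : ℕ) (hmn : m + 2 ≤ n) : Tendsto (fun ℓ : ℕ =>
    (({w : Fin m → List (Fin n × Bool) |
        (∀ i, FreeGroup.IsReduced (w i) ∧ (w i).length = ℓ) ∧
        BiInterpretableWithNat (PresentedGroup (Set.range (fun i => FreeGroup.mk (w i)) ∪
          (derivedSeries (FreeGroup (Fin n)) 2 : Set (FreeGroup (Fin n)))))}.ncard : ℕ) : ℝ) /
      (({w : Fin m → List (Fin n × Bool) |
        ∀ i, FreeGroup.IsReduced (w i) ∧ (w i).length = ℓ}.ncard : ℕ) : ℝ)) atTop (𝓝 1) :=
  tendsto_prob hmn

end Pool.Agent.Results.MP_d3a22b_lc.RandomMetabelian
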